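import Pool.Agent.W133.DQ.Assembly

set_option autoImplicit false

open scoped ContDiff

namespace Pool.Agent.Results.MP_d4f2c9_gt.DimensionOne

/-- The closed unit disk of the plane. -/
abbrev Disk : Type := {p : ℝ × ℝ // p.1 ^ 2 + p.2 ^ 2 ≤ 1}

/-- A bijection of the closed disk that is the restriction of a smooth map of the plane whose
Jacobian determinant is positive on the disk. -/
def SmoothPos (f : Equiv.Perm Disk) : Prop := ∃ F : ℝ × ℝ → ℝ × ℝ, ContDiff ℝ ∞ F ∧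
  (∀ p : Disk, (f p : ℝ × ℝ) = F p) ∧ ∀ p : Disk, 0 < (fderiv ℝ F p).det

/-- The center of the disk. -/
def center : Disk := ⟨0, by simp⟩

/-- The set of orientation preserving smooth diffeomorphisms of the closed disk fixing the
center. -/
def DiffSet : Set (Equiv.Perm Disk) := {f | SmoothPos f ∧ SmoothPos f⁻¹ ∧ f center = center}

theorem diff_mul {f g : Equiv.Perm Disk} (h : f ∈ DiffSet) (k : g ∈ DiffSet) : f * g ∈ DiffSet :=
  W133.DQ.GG.mul_mem' h k

theorem diff_one : 1 ∈ DiffSet := W133.DQ.GG.one_mem'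

theorem diff_inv {f : Equiv.Perm Disk} (h : f ∈ DiffSet) : f⁻¹ ∈ DiffSet :=
  W133.DQ.GG.inv_mem' h

/-- The group of orientation preserving smooth diffeomorphisms of the closed disk fixing the
center, as a subgroup of the group of all bijections of the disk. -/
def DiffDisk : Subgroup (Equiv.Perm Disk) where
  carrier := DiffSet
  mul_mem' := diff_mul
  one_mem' := diff_one
  inv_mem' := diff_inv

/-- The set of homogeneous quasimorphisms of a group. -/
def HQSet (Γ : Type) [Group Γ] : Set (Γ → ℝ) :=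
  {φ | (∃ D : ℝ, ∀ a b : Γ, |φ (a * b) - φ a - φ b| ≤ D) ∧ ∀ (a : Γ) (n : ℤ), φ (a ^ n) = n * φ a}

theorem hq_add (Γ : Type) [Group Γ] {φ ψ : Γ → ℝ} (h : φ ∈ HQSet Γ) (k : ψ ∈ HQSet Γ) :
    φ + ψ ∈ HQSet Γ := by
  obtain ⟨⟨D, hD⟩, h1⟩ := h
  obtain ⟨⟨E, hE⟩, h2⟩ := k
  refine ⟨⟨D + E, fun a b => ?_⟩, fun a n => ?_⟩
  · have e : (φ + ψ) (a * b) - (φ + ψ) a - (φ + ψ) b =
        (φ (a * b) - φ a - φ b) + (ψ (a * b) - ψ a - ψ b) := by
      simp only [Pi.add_apply]; ring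
    rw [e]
    exact (abs_add_le _ _).trans (add_le_add (hD a b) (hE a b))
  · simp only [Pi.add_apply, h1, h2]; ring

theorem hq_zero (Γ : Type) [Group Γ] : 0 ∈ HQSet Γ := ⟨⟨0, fun a b => by simp⟩, fun a n => by simp⟩

theorem hq_smul (Γ : Type) [Group Γ] (c : ℝ) {φ : Γ → ℝ} (h : φ ∈ HQSet Γ) : c • φ ∈ HQSet Γ := by
  obtain ⟨⟨D, hD⟩, h1⟩ := h
  refine ⟨⟨|c| * D, fun a b => ?_⟩, fun a n => ?_⟩
  · have e : (c • φ) (a * b) - (c • φ) a - (c • φ) b = c * (φ (a * b) - φ a - φ b) := by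
      simp only [Pi.smul_apply, smul_eq_mul]; ring
    rw [e, abs_mul]
    exact mul_le_mul_of_nonneg_left (hD a b) (abs_nonneg c)
  · simp only [Pi.smul_apply, smul_eq_mul, h1]; ring

/-- The space of homogeneous quasimorphisms of a group. -/
def HQ (Γ : Type) [Group Γ] : Submodule ℝ (Γ → ℝ) where
  carrier := HQSet Γ
  add_mem' := hq_add Γ
  zero_mem' := hq_zero Γ
  smul_mem' := hq_smul Γ

/-- The set of homomorphisms to the real numbers. -/
def HMSet (Γ : Type) [Group Γ] : Set (Γ → ℝ) := {φ | ∀ a b : Γ, φ (a * b) = φ a + φ b}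

theorem hm_add (Γ : Type) [Group Γ] {φ ψ : Γ → ℝ} (h : φ ∈ HMSet Γ) (k : ψ ∈ HMSet Γ) :
    φ + ψ ∈ HMSet Γ := by
  intro a b
  simp only [Pi.add_apply, h a b, k a b]; ring

theorem hm_zero (Γ : Type) [Group Γ] : 0 ∈ HMSet Γ := fun a b => by simp

theorem hm_smul (Γ : Type) [Group Γ] (c : ℝ) {φ : Γ → ℝ} (h : φ ∈ HMSet Γ) : c • φ ∈ HMSet Γ := by
  intro a b
  simp only [Pi.smul_apply, smul_eq_mul, h a b]; ring

/-- The space of homomorphisms to the real numbers. -/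
def HM (Γ : Type) [Group Γ] : Submodule ℝ (Γ → ℝ) where
  carrier := HMSet Γ
  add_mem' := hm_add Γ
  zero_mem' := hm_zero Γ
  smul_mem' := hm_smul Γ

/-- The homomorphisms as a subspace of the space of homogeneous quasimorphisms. -/
def HMQ (Γ : Type) [Group Γ] : Submodule ℝ (HQ Γ) := (HM Γ).submoduleOf (HQ Γ)

/-- The dimension of the space of homogeneous quasimorphisms modulo the homomorphisms. -/
noncomputable def dimQBar (Γ : Type) [Group Γ] : Cardinal := Module.rank ℝ (HQ Γ ⧸ HMQ Γ)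

/-- extension by zero of a function on the group to all bijections. -/
noncomputable def ext0 (φ : DiffDisk → ℝ) (f : Equiv.Perm W133.DQ.DD) : ℝ :=
  open Classical in if h : f ∈ W133.DQ.GG then φ ⟨f, h⟩ else 0

theorem ext0_eq (φ : DiffDisk → ℝ) (f : Equiv.Perm W133.DQ.DD) (h : f ∈ W133.DQ.GG) :
    ext0 φ f = φ ⟨f, h⟩ := by
  unfold ext0
  rw [dif_pos h]

theorem hqm_ext0 {φ : DiffDisk → ℝ} (h : φ ∈ HQ DiffDisk) :
    W133.DQ.HQMOn W133.DQ.GG (ext0 φ) := by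
  obtain ⟨⟨D, hD⟩, h2⟩ := h
  refine ⟨⟨D, fun a ha b hb => ?_⟩, fun a ha n => ?_⟩
  · rw [ext0_eq φ _ (mul_mem ha hb), ext0_eq φ _ ha, ext0_eq φ _ hb]
    exact hD ⟨a, ha⟩ ⟨b, hb⟩
  · rw [ext0_eq φ _ (zpow_mem ha n), ext0_eq φ _ ha]
    exact h2 ⟨a, ha⟩ n

theorem hm_of_ext0 {φ : DiffDisk → ℝ} (h : W133.DQ.HomOn W133.DQ.GG (ext0 φ)) :
    φ ∈ HM DiffDisk := by
  intro a b
  have := h a.1 a.2 b.1 b.2
  rw [ext0_eq φ _ (mul_mem a.2 b.2), ext0_eq φ _ a.2, ext0_eq φ _ b.2] at this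
  exact this

theorem result_of (h1 : W133.DQ.S_MAIN) (h2 : W133.DQ.S_LB) :
    HM DiffDisk ≤ HQ DiffDisk ∧ dimQBar DiffDisk = 1 := by
  refine ⟨?_, ?_⟩
  · intro φ hφ
    have h1 : φ 1 = 0 := by
      have := hφ 1 1
      rw [mul_one] at this
      linarith
    have hn : ∀ (a : DiffDisk) (n : ℕ), φ (a ^ n) = n * φ a := by
      intro a n
      induction n with
      | zero => simp [h1]
      | succ n ih => rw [pow_succ, hφ, ih]; push_cast; ring
    have hi : ∀ a : DiffDisk, φ a⁻¹ = - φ a := by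
      intro a
      have := hφ a a⁻¹
      rw [mul_inv_cancel, h1] at this
      linarith
    refine ⟨⟨0, fun a b => by rw [hφ a b]; simp⟩, fun a n => ?_⟩
    obtain ⟨m, rfl | rfl⟩ := n.eq_nat_or_neg
    · rw [zpow_natCast, hn]; norm_cast
    · rw [zpow_neg, zpow_natCast, hi, hn]; push_cast; ring
  · obtain ⟨T, hT, hmain⟩ := h1
    obtain ⟨ψ, hψ, hψn⟩ := h2
    set ψ' : DiffDisk → ℝ := fun a => ψ a.1 with hψ'
    have hψq : ψ' ∈ HQ DiffDisk := by
      obtain ⟨⟨D, hD⟩, h2⟩ := hψ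
      exact ⟨⟨D, fun a b => hD a.1 a.2 b.1 b.2⟩, fun a n => h2 a.1 a.2 n⟩
    have hψm : ψ' ∉ HM DiffDisk := fun h => hψn fun a ha b hb => h ⟨a, ha⟩ ⟨b, hb⟩
    have hψT : ψ' ⟨T, hT⟩ ≠ 0 := by
      intro h0
      apply hψm
      apply hm_of_ext0
      apply hmain _ (hqm_ext0 hψq)
      rw [ext0_eq _ _ hT]
      exact h0
    refine rank_eq_one (Submodule.Quotient.mk ⟨ψ', hψq⟩) ?_ ?_
    · intro h
      rw [Submodule.Quotient.mk_eq_zero] at h
      exact hψm h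
    · intro w
      obtain ⟨⟨φ, hφ⟩, rfl⟩ := Submodule.Quotient.mk_surjective _ w
      refine ⟨φ ⟨T, hT⟩ / ψ' ⟨T, hT⟩, ?_⟩
      rw [← Submodule.Quotient.mk_smul, Submodule.Quotient.eq]
      show (φ ⟨T, hT⟩ / ψ' ⟨T, hT⟩) • ψ' - φ ∈ HM DiffDisk
      have hq : (φ ⟨T, hT⟩ / ψ' ⟨T, hT⟩) • ψ' - φ ∈ HQ DiffDisk :=
        Submodule.sub_mem _ (Submodule.smul_mem _ _ hψq) hφ
      apply hm_of_ext0
      apply hmain _ (hqm_ext0 hq)
      rw [ext0_eq _ _ hT]
      simp only [Pi.sub_apply, Pi.smul_apply, smul_eq_mul]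
      field_simp
      ring

/-- For the group of orientation preserving smooth diffeomorphisms of the closed disk that fix the
center, the space of homogeneous quasimorphisms modulo homomorphisms is one dimensional. -/
theorem result : HM DiffDisk ≤ HQ DiffDisk ∧ dimQBar DiffDisk = 1 :=
  result_of W133.DQ.h_MAIN W133.DQ.h_LB

end Pool.Agent.Results.MP_d4f2c9_gt.DimensionOne
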